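import Pool.Agent.Helper49.CA.Stm
import Pool.Agent.Helper6K1.BN.T1b

/-!
# Coin-dependent advice gives random features
-/

set_option autoImplicit false

namespace Pool.Agent.Hx18.CA

open Finset BigOperators Pool.Agent.NPC
open Pool.Agent.H579R2.Spt (BL mem_BL take_poly' drop_poly')
open Pool.Agent.Helper6K1.BN
open Pool.Agent.Helper49.CA

/-- the machine that reads the advice from the random string -/
noncomputable def V4 (c : ℕ) (ρ : Polynomial ℕ) (V : List Bool → List Bool) (y : List Bool) :
    List Bool :=
  V (pairBits (unpair y).1 (pairBits ((unpair y).2.take (ρ.eval (unpair y).1.length))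
    (((unpair y).2.drop (ρ.eval (unpair y).1.length)).take (c * (unpair y).1.length.size))))

theorem V4_poly {c : ℕ} {ρ : Polynomial ℕ} {V : List Bool → List Bool} (hV : PolyTime V) :
    PolyTime (V4 c ρ V) := by
  have hV' : Poly V := PIso.poly_iff.2 hV
  have e1 : Poly (fun y : List Bool => (unpair y).1) := NPC.Poly.fst poly_unpair
  have e2 : Poly (fun y : List Bool => (unpair y).2) := NPC.Poly.snd poly_unpair
  have un := UPoly.length e1
  have uk := (UPoly.const c).mul (size_upoly un)
  have er := take_poly' e2 (un.eval ρ).toPoly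
  have ea := take_poly' (drop_poly' e2 (un.eval ρ).toPoly) uk.toPoly
  exact PIso.poly_iff.1 (hV'.comp (poly_pairBits e1 (poly_pairBits er ea)))

theorem V4_eq {c : ℕ} {ρ : Polynomial ℕ} {V : List Bool → List Bool} (x r : List Bool) :
    V4 c ρ V (pairBits x r) = V (pairBits x (pairBits (r.take (ρ.eval x.length))
      ((r.drop (ρ.eval x.length)).take (c * x.length.size)))) := by
  unfold V4
  rw [unpair_pairBits]

theorem expect_coin {R K s : ℕ} (g : List Bool → List Bool → Prop) [∀ u v, Decidable (g u v)]
    (al : List Bool → List Bool) (hal : ∀ u, (al u).length = K) (C : ℝ) :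
    𝔼 r ∈ BL (R + (K + s)), (if g (r.take R) ((r.drop R).take K) then
      C * 2 ^ K * (if (r.drop R).take K = al (r.take R) then (1 : ℝ) else 0) else 0) =
      C * 𝔼 u ∈ BL R, (if g u (al u) then (1 : ℝ) else 0) := by
  rw [expect_BL_split R (K + s) fun u d => if g u (d.take K) then
      C * 2 ^ K * (if d.take K = al u then (1 : ℝ) else 0) else 0, mul_expect]
  refine expect_congr rfl fun u _ => ?_
  rw [expect_BL_take K s fun v => if g u v then
      C * 2 ^ K * (if v = al u then (1 : ℝ) else 0) else 0]
  have h1 : ∀ v ∈ BL K, (if g u v then C * 2 ^ K * (if v = al u then (1 : ℝ) else 0) else 0) =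
      (if g u v then C * 2 ^ K else 0) * (if v = al u then (1 : ℝ) else 0) := by
    intro v _
    split_ifs <;> simp
  rw [expect_congr rfl h1, expect_single (hal u) fun v => if g u v then C * 2 ^ K else 0]
  have h2 : (2 : ℝ) ^ K ≠ 0 := by positivity
  by_cases hg : g u (al u)
  · rw [if_pos hg, if_pos hg]
    field_simp
  · rw [if_neg hg, if_neg hg]
    simp

theorem t4 : S4 := by
  classical
  rintro L ⟨c, V, ρ, q, α, θ, hV, hα, H⟩
  refine ⟨V4 c ρ V, ρ + Polynomial.C c * Polynomial.X, (q + 1) ^ 2 * (2 * Polynomial.X + 1) ^ c,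
    fun n r => (((q.eval n : ℕ) : ℝ) + 1) * 2 ^ (c * n.size) *
      (if (r.drop (ρ.eval n)).take (c * n.size) = α n (r.take (ρ.eval n)) then (1 : ℝ) else 0),
    fun n => (((q.eval n : ℕ) : ℝ) + 1) * θ n, V4_poly hV, fun n => ?_, fun x => ?_⟩
  · obtain ⟨s, hs⟩ : ∃ s, c * n = c * n.size + s :=
      ⟨c * n - c * n.size, by
        have := Nat.mul_le_mul_left c (Nat.size_le.2 (Nat.lt_two_pow_self (n := n)))
        omega⟩
    have hev : (ρ + Polynomial.C c * Polynomial.X).eval n = ρ.eval n + (c * n.size + s) := by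
      rw [← hs]
      simp
    rw [mean_eq, hev]
    set C : ℝ := ((q.eval n : ℕ) : ℝ) + 1 with hC
    set K := c * n.size with hK
    have h1 := expect_coin (R := ρ.eval n) (K := K) (s := s) (fun _ _ => True)
      (fun u => α n u) (fun u => hα n u) (C ^ 2 * 2 ^ K)
    simp only [if_true] at h1
    have h2 : ∀ r ∈ BL (ρ.eval n + (K + s)),
        (C * 2 ^ K * (if (r.drop (ρ.eval n)).take K = α n (r.take (ρ.eval n))
          then (1 : ℝ) else 0)) ^ 2 =
        C ^ 2 * 2 ^ K * 2 ^ K * (if (r.drop (ρ.eval n)).take K = α n (r.take (ρ.eval n))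
          then (1 : ℝ) else 0) := by
      intro r _
      split_ifs
      · ring
      · ring
    rw [expect_congr rfl h2, h1, expect_const (BL_nonempty _), mul_one]
    have h3 : (2 : ℝ) ^ K ≤ ((((2 * n + 1) ^ c : ℕ)) : ℝ) := by
      rw [hK, mul_comm c, pow_mul]
      exact_mod_cast Nat.pow_le_pow_left (two_pow_size_le n) c
    have h4 : (((((q + 1) ^ 2 * (2 * Polynomial.X + 1) ^ c : Polynomial ℕ)).eval n : ℕ) : ℝ) =
        C ^ 2 * (((2 * n + 1) ^ c : ℕ) : ℝ) := by
      simp [hC]
    rw [h4]
    exact mul_le_mul_of_nonneg_left h3 (by positivity)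
  · set n := x.length with hn
    obtain ⟨s, hs⟩ : ∃ s, c * n = c * n.size + s :=
      ⟨c * n - c * n.size, by
        have := Nat.mul_le_mul_left c (Nat.size_le.2 (Nat.lt_two_pow_self (n := n)))
        omega⟩
    have hev : (ρ + Polynomial.C c * Polynomial.X).eval n = ρ.eval n + (c * n.size + s) := by
      rw [← hs]
      simp
    set C : ℝ := ((q.eval n : ℕ) : ℝ) + 1 with hC
    have hC0 : 0 < C := by positivity
    have h1 : mean ((ρ + Polynomial.C c * Polynomial.X).eval n)
        (fun r => if V4 c ρ V (pairBits x r) = [true] then C * 2 ^ (c * n.size) *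
          (if (r.drop (ρ.eval n)).take (c * n.size) = α n (r.take (ρ.eval n))
            then (1 : ℝ) else 0) else 0) =
        C * prob (ρ.eval n) fun r => V (pairBits x (pairBits r (α n r))) = [true] := by
      rw [mean_eq, hev, prob_eq']
      have h2 := expect_coin (R := ρ.eval n) (K := c * n.size) (s := s)
        (fun u v => V (pairBits x (pairBits u v)) = [true])
        (fun u => α n u) (fun u => hα n u) C
      rw [← h2]
      refine expect_congr rfl fun r _ => ?_
      rw [V4_eq, ← hn]
    rw [h1]
    constructor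
    · intro hx
      have h2 := mul_le_mul_of_nonneg_left ((H x).1 hx) hC0.le
      rw [← hn, ← hC] at h2
      have h3 : C * (θ n + 1 / C) = C * θ n + 1 := by
        field_simp
      rw [h3] at h2
      exact h2
    · intro hx
      have h2 := mul_le_mul_of_nonneg_left ((H x).2 hx) hC0.le
      rw [← hn] at h2
      exact h2

end Pool.Agent.Hx18.CA
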